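import Pool.Agent.H17.BO.TargetsD
import Pool.Agent.H27.LV.Gen

/-!
# MP_70ba79_ag, board `bo_modules`, row FNX: formulas for functionals
-/

set_option autoImplicit false

namespace Pool.Agent.H15.BO

open MvPolynomial SC Pool.Agent.H27.LV Pool.Agent.H17.VG Pool.Agent.H17.BO

variable {K : Type} [Field K] {n d : ℕ}

lemma fnl_sum {ι : Type} [Fintype ι] (y : Mon (n + 1) d → K) (c : ι → K)
    (N : ι → Mon (n + 1) d) :
    fnl y (∑ i, C (c i) * mono K (N i).1) = ∑ i, c i * y (N i) := by
  classical
  unfold fnl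
  simp only [coeff_sum, coeff_C_mul, coeff_mono, Finset.mul_sum]
  rw [Finset.sum_comm]
  refine Finset.sum_congr rfl fun i _ => ?_
  rw [Finset.sum_eq_single (N i)]
  · simp [mul_comm]
  · intro M _ hM
    rw [if_neg fun h => hM (Subtype.ext h.symm)]
    simp
  · simp

lemma X_mul_mono (j : Fin (n + 1)) (M : Mon (n + 1) d) :
    X j * mono K M.1 = mono K (sh j M).1 := by
  classical
  have h : Finsupp.single j 1 + fs M.1 = fs (sh j M).1 := by
    ext i
    rw [Finsupp.add_apply, fs_apply, fs_apply, Finsupp.single_apply, add_comm]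
    simp only [sh]
    by_cases h : i = j
    · rw [if_pos h, if_pos h.symm]
    · rw [if_neg h, if_neg (Ne.symm h)]
  unfold mono
  rw [X, monomial_mul, one_mul, h]

lemma sh_injective (j : Fin (n + 1)) : Function.Injective (sh (d := d) j) := by
  intro M M' h
  apply Subtype.ext
  funext i
  have h1 := congrFun (congrArg Subtype.val h) i
  simp only [sh] at h1
  omega

lemma exists_sh {j : Fin (n + 1)} {M : Mon (n + 1) (d + 1)} (h : M.1 j ≠ 0) :
    ∃ M', sh j M' = M := by
  classical
  refine ⟨⟨fun i => M.1 i - if i = j then 1 else 0, ?_⟩, ?_⟩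
  · have h1 : ∑ i, M.1 i = ∑ i, (M.1 i - if i = j then 1 else 0) + ∑ i, (if i = j then 1 else 0) := by
      rw [← Finset.sum_add_distrib]
      refine Finset.sum_congr rfl fun i _ => ?_
      by_cases hi : i = j
      · subst hi
        rw [if_pos rfl]
        omega
      · rw [if_neg hi]
        omega
    rw [M.2, Finset.sum_ite_eq' Finset.univ j (fun _ => 1)] at h1
    simp only [Finset.mem_univ, if_true] at h1
    exact (Nat.succ_injective h1).symm
  · apply Subtype.ext
    funext i
    simp only [sh]
    by_cases hi : i = j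
    · subst hi
      rw [if_pos rfl]
      omega
    · rw [if_neg hi]
      omega

lemma fnl_X_mul (y : Mon (n + 1) (d + 1) → K) (Q : Mon (n + 1) d → K) (j : Fin (n + 1)) :
    fnl y (X j * frm Q) = ∑ M, Q M * y (sh j M) := by
  have h : X j * frm Q = ∑ M, C (Q M) * mono K (sh j M).1 := by
    unfold frm
    rw [Finset.mul_sum]
    refine Finset.sum_congr rfl fun M _ => ?_
    rw [← X_mul_mono]
    ring
  rw [h, fnl_sum]

lemma fnl_frm (y c : Mon (n + 1) d → K) : fnl y (frm c) = ∑ M, y M * c M := by
  have h := fnl_sum y c (fun M => M)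
  unfold frm
  rw [h]
  exact Finset.sum_congr rfl fun M _ => mul_comm _ _

lemma pderiv_frm (c : Mon (n + 1) (d + 1) → K) (j : Fin (n + 1)) :
    pderiv j (frm c) = frm (fun M : Mon (n + 1) d => ((M.1 j + 1 : ℕ) : K) * c (sh j M)) := by
  classical
  unfold frm
  rw [map_sum]
  symm
  refine Fintype.sum_of_injective (sh j) (sh_injective j) _ _ ?_ ?_
  · intro M hM
    have h0 : M.1 j = 0 := by
      by_contra h
      obtain ⟨M', hM'⟩ := exists_sh h
      exact hM ⟨M', hM'⟩
    rw [pderiv_C_mul]
    unfold mono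
    rw [pderiv_monomial, fs_apply, h0]
    simp
  · intro M
    rw [pderiv_C_mul]
    unfold mono
    rw [pderiv_monomial, fs_apply, C_mul_monomial, C_mul_monomial]
    have h1 : fs (sh j M).1 - Finsupp.single j 1 = fs M.1 := by
      ext i
      rw [Finsupp.tsub_apply, fs_apply, fs_apply, Finsupp.single_apply]
      simp only [sh]
      by_cases hi : i = j
      · subst hi
        simp
      · rw [if_neg hi, if_neg (Ne.symm hi)]
        simp
    have h2 : (sh j M).1 j = M.1 j + 1 := by simp [sh]
    rw [h1, h2]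
    congr 1
    ring

theorem pf_FNX : T_FNX := by
  intro K _ n d y Q c j
  exact ⟨fnl_X_mul y Q j, fnl_frm y c, pderiv_frm c j⟩

end Pool.Agent.H15.BO
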