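import Pool.Agent.H17.BO.TargetsD

/-!
# MP_70ba79_ag, board `bo_modules`, row IMP: a quadratic equation for a parametrised conic
-/

set_option autoImplicit false

namespace Pool.Agent.H15.BO

open MvPolynomial SC Pool.Agent.H27.LV Pool.Agent.H17.VG Pool.Agent.H17.BO

/-- the form `β ^ 2 - α γ` -/
def q0 (K : Type) [Field K] : Matrix (Fin 3) (Fin 3) K :=
  !![0, 0, -(1 / 2); 0, 1, 0; -(1 / 2), 0, 0]

lemma bil_rows {K : Type} [Field K] (q M : Matrix (Fin 3) (Fin 3) K) (i j : Fin 3) :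
    bil q (M i) (M j) = (M * q * M.transpose) i j := by
  unfold bil
  rw [Matrix.mul_apply]
  simp only [Matrix.mul_apply, Matrix.transpose_apply, Finset.sum_mul]
  rw [Finset.sum_comm]
  refine Finset.sum_congr rfl fun b _ => Finset.sum_congr rfl fun a _ => ?_
  ring

theorem pf_IMP : T_IMP := by
  intro K _ _ A B C hI
  obtain ⟨M, hM⟩ : ∃ M : Matrix (Fin 3) (Fin 3) K, M = Matrix.of ![A, B, C] := ⟨_, rfl⟩
  have hdet : M.det ≠ 0 := by
    have h1 : LinearIndependent K M.row := by rw [hM]; exact hI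
    have h2 := Matrix.linearIndependent_rows_iff_isUnit.1 h1
    exact ((Matrix.isUnit_iff_isUnit_det M).1 h2).ne_zero
  have hu : IsUnit M.det := isUnit_iff_ne_zero.2 hdet
  have hMN : M * M⁻¹ = 1 := Matrix.mul_nonsing_inv M hu
  have hq0 : (q0 K).transpose = q0 K := by
    ext i j
    fin_cases i <;> fin_cases j <;> rfl
  have hq0d : (q0 K).det = -(1 / 4) := by
    unfold q0
    rw [Matrix.det_fin_three]
    simp
    norm_num
  obtain ⟨q, hq⟩ : ∃ q : Matrix (Fin 3) (Fin 3) K, q = M⁻¹ * q0 K * (M⁻¹).transpose := ⟨_, rfl⟩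
  have hMq : M * q * M.transpose = q0 K := by
    rw [hq]
    have : M * (M⁻¹ * q0 K * (M⁻¹).transpose) * M.transpose =
        (M * M⁻¹) * q0 K * (M * M⁻¹).transpose := by
      rw [Matrix.transpose_mul]
      simp only [Matrix.mul_assoc]
    rw [this, hMN]
    simp
  have hb : ∀ i j, bil q (M i) (M j) = q0 K i j := fun i j => by rw [bil_rows, hMq]
  have r0 : M 0 = A := by rw [hM]; rfl
  have r1 : M 1 = B := by rw [hM]; rfl
  have r2 : M 2 = C := by rw [hM]; rfl
  refine ⟨q, ?_, ?_, hI, ?_, ?_, ?_, ?_, ?_⟩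
  · unfold Matrix.IsSymm
    rw [hq, Matrix.transpose_mul, Matrix.transpose_mul, Matrix.transpose_transpose, hq0,
      Matrix.mul_assoc]
  · rw [hq, Matrix.det_mul, Matrix.det_mul, Matrix.det_transpose, hq0d]
    have h3 : (M⁻¹).det ≠ 0 := by
      rw [Matrix.det_nonsing_inv, Ring.inverse_eq_inv']
      exact inv_ne_zero hdet
    have h4 : (-(1 / 4) : K) ≠ 0 := by norm_num
    exact mul_ne_zero (mul_ne_zero h3 h4) h3
  · have := hb 0 0
    rw [r0] at this
    rw [this]
    rfl
  · have := hb 0 1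
    rw [r0, r1] at this
    rw [this]
    rfl
  · have h1 := hb 1 1
    have h2 := hb 0 2
    rw [r1] at h1
    rw [r0, r2] at h2
    rw [h1, h2]
    unfold q0
    simp
  · have := hb 1 2
    rw [r1, r2] at this
    rw [this]
    rfl
  · have := hb 2 2
    rw [r2] at this
    rw [this]
    rfl

end Pool.Agent.H15.BO
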