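import Pool.Agent.H17.BO.TargetsA
import Pool.Agent.H86.VG.KP

/-!
# MP_70ba79_ag, board `bo_modules`, row KB: points over an infinite subfield, two open conditions
-/

set_option autoImplicit false

namespace Pool.Agent.H15.BO

open MvPolynomial SC Pool.Agent.H27.LV Pool.Agent.H17.VG Pool.Agent.H17.BO

/-- the condition `r ≤ rank` is open -/
lemma kb_open {K V N ι κ : Type} [Field K] [AddCommGroup V] [Module K V] [AddCommGroup N]
    [Module K N] [FiniteDimensional K N] [Finite ι] [Finite κ]
    (B : V →ₗ[K] (κ → K) →ₗ[K] N) (Q : ι → κ → K) (r : ℕ)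
    (hr : r ≤ Module.finrank K (im B Q)) :
    ∃ f : MvPolynomial (ι × κ) K, eval (fun p => Q p.1 p.2) f ≠ 0 ∧
      ∀ Y : ι × κ → K, eval Y f ≠ 0 → r ≤ Module.finrank K (im B fun i j => Y (i, j)) := by
  classical
  have := Fintype.ofFinite κ
  obtain ⟨w, hw, hli⟩ := kp_choose _ r hr
  choose v i hvi using hw
  obtain ⟨L, hL⟩ : ∃ L : N →ₗ[K] (Fin r → K), ∀ t, L (w t) = Pi.single t 1 := by
    have hinj : LinearMap.ker (Fintype.linearCombination K w) = ⊥ := by
      rw [LinearMap.ker_eq_bot]
      exact linearIndependent_iff_injective_fintypeLinearCombination.1 hli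
    obtain ⟨L, hL⟩ := LinearMap.exists_leftInverse_of_injective _ hinj
    refine ⟨L, fun t => ?_⟩
    have h1 := congrArg (fun g => g (Pi.single t (1 : K))) hL
    simpa [Fintype.linearCombination_apply_single] using h1
  obtain ⟨f, hf⟩ : ∃ f : MvPolynomial (ι × κ) K, ∀ Y : ι × κ → K, eval Y f =
      (Matrix.of fun s t : Fin r => L (B (v t) (fun j => Y (i t, j))) s).det := by
    refine ⟨(Matrix.of fun s t : Fin r =>
      ∑ j, C (L (B (v t) (Pi.single j 1)) s) * X (i t, j)).det, fun Y => ?_⟩
    rw [RingHom.map_det]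
    congr 1
    ext s t
    rw [RingHom.mapMatrix_apply, Matrix.map_apply, Matrix.of_apply, Matrix.of_apply, map_sum]
    have h1 : (fun j => Y (i t, j)) = ∑ j, Y (i t, j) • (Pi.single j (1 : K) : κ → K) := by
      ext j
      simp [Finset.sum_apply, Pi.single_apply]
    rw [h1, map_sum, map_sum, Finset.sum_apply]
    refine Finset.sum_congr rfl fun j _ => ?_
    rw [map_smul, map_smul, Pi.smul_apply, smul_eq_mul, map_mul, eval_C, eval_X, mul_comm]
  refine ⟨f, ?_, fun Y hYf => ?_⟩
  · intro h0
    have h1 := hf fun p => Q p.1 p.2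
    have h2 : (Matrix.of fun s t : Fin r => L (B (v t) (fun j => Q (i t) j)) s) = 1 := by
      ext s t
      rw [Matrix.of_apply, ← hvi t, hL, Matrix.one_apply, Pi.single_apply]
    simp only at h1
    rw [h2, h0, Matrix.det_one] at h1
    exact zero_ne_one h1
  · have hli' : LinearIndependent K fun t : Fin r => B (v t) (fun j => Y (i t, j)) := by
      rw [hf] at hYf
      have h1 := Matrix.linearIndependent_cols_of_det_ne_zero hYf
      refine LinearIndependent.of_comp L ?_
      convert! h1 using 1
    have h2 := finrank_span_eq_card hli'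
    rw [Fintype.card_fin] at h2
    rw [← h2]
    refine Submodule.finrank_mono (Submodule.span_mono ?_)
    rintro _ ⟨t, rfl⟩
    exact ⟨v t, i t, rfl⟩

theorem pf_KB : T_KB := by
  intro k K V N κ _ _ _ _ _ _ _ _ _ _ B s r hle Q q hr htop
  classical
  obtain ⟨f, hf, hf'⟩ := kb_open B Q r hr.ge
  obtain ⟨g, hg, hg'⟩ := kb_open B (Sum.elim Q fun _ : Unit => q) (Module.finrank K N)
    (by rw [htop, finrank_top])
  have hfg : rename (fun p : Fin s × κ => ((Sum.inl p.1 : Fin s ⊕ Unit), p.2)) f * g ≠ 0 := by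
    intro h0
    have h1 := congrArg (eval fun p : (Fin s ⊕ Unit) × κ =>
      (Sum.elim Q fun _ : Unit => q) p.1 p.2) h0
    rw [map_mul, map_zero, eval_rename] at h1
    rcases mul_eq_zero.1 h1 with h | h
    · exact hf h
    · exact hg h
  obtain ⟨Y, hY, hYf⟩ : ∃ Y ∈ Set.pi Set.univ
      (fun _ : (Fin s ⊕ Unit) × κ => Set.range (algebraMap k K)),
      eval Y (rename (fun p : Fin s × κ => ((Sum.inl p.1 : Fin s ⊕ Unit), p.2)) f * g) ≠ 0 := by
    by_contra hcon
    push Not at hcon
    apply hfg
    refine funext_set (fun _ : (Fin s ⊕ Unit) × κ => Set.range (algebraMap k K))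
      (fun _ => Set.infinite_range_of_injective (algebraMap k K).injective) fun Y hY => ?_
    rw [map_zero]
    exact hcon Y hY
  have hY' : ∀ p, ∃ a : k, algebraMap k K a = Y p := fun p => hY p (Set.mem_univ p)
  choose z hz using hY'
  rw [map_mul, eval_rename] at hYf
  have h1 := hf' _ (left_ne_zero_of_mul hYf)
  have h2 := hg' _ (right_ne_zero_of_mul hYf)
  refine ⟨fun i j => z (Sum.inl i, j), fun j => z (Sum.inr (), j), ?_, ?_⟩
  · refine le_antisymm (hle _) ?_
    have h3 : (fun (i : Fin s) j => algebraMap k K (z (Sum.inl i, j))) = fun i j =>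
        (Y ∘ fun p : Fin s × κ => ((Sum.inl p.1 : Fin s ⊕ Unit), p.2)) (i, j) := by
      funext i j
      exact hz _
    rw [h3]
    exact h1
  · refine Submodule.eq_top_of_finrank_eq (le_antisymm (Submodule.finrank_le _) ?_)
    have h3 : (Sum.elim (fun i j => algebraMap k K (z (Sum.inl i, j)))
        fun (_ : Unit) j => algebraMap k K (z (Sum.inr (), j))) =
        fun (i : Fin s ⊕ Unit) j => Y (i, j) := by
      funext i j
      rcases i with i | i
      · exact hz _
      · exact hz _
    rw [h3]
    exact h2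

end Pool.Agent.H15.BO
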