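import Pool.Agent.H17.BO.TargetsX
import Pool.Agent.H17.VG.TT

/-!
# MP_70ba79_ag, board `bo_modules`, row NFC: normal form of a conic through `x`
-/

set_option autoImplicit false

namespace Pool.Agent.H15.BO

open MvPolynomial SC Pool.Agent.H27.LV Pool.Agent.H17.VG Pool.Agent.H17.BO

variable {K : Type} [Field K] {n : ℕ}

/-- evaluation of `res2` after base change -/
lemma eval_map_res2 {Ω : Type} [Field Ω] (φ : K →+* Ω) (x b c : Fin (n + 1) → K)
    (G : MvPolynomial (Fin (n + 1)) K) (T : Ω) :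
    ((res2 x b c G).map φ).eval T =
      eval (fun i => φ (x i) + T * φ (b i) + T ^ 2 * φ (c i)) (MvPolynomial.map φ G) := by
  unfold res2
  induction G using MvPolynomial.induction_on with
  | C a => simp
  | add p q hp hq => simp only [map_add, Polynomial.map_add, Polynomial.eval_add, hp, hq]
  | mul_X p i hp =>
    rw [map_mul, Polynomial.map_mul, Polynomial.eval_mul, hp, map_mul, aeval_X,
      MvPolynomial.map_X, map_mul, eval_X]
    simp only [Polynomial.map_add, Polynomial.map_C, Polynomial.map_mul, Polynomial.map_X,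
      Polynomial.map_pow, Polynomial.eval_add, Polynomial.eval_C, Polynomial.eval_mul,
      Polynomial.eval_X, Polynomial.eval_pow]
    ring

/-- shift of the parameter -/
lemma twoRoots2_shift {d : ℕ} {F : MvPolynomial (Fin (n + 1)) K} (hF : F.IsHomogeneous d)
    {x b c : Fin (n + 1) → K} (g : K) (h : TwoRoots2 d F x b c) :
    TwoRoots2 d F x (fun i => b i + 2 * g * x i) (fun i => c i + g * b i + g ^ 2 * x i) := by
  obtain ⟨α, β, i, j, hij, h1⟩ := h
  obtain ⟨φ, hφ⟩ : ∃ φ : K →+* AlgebraicClosure K, φ = algebraMap K (AlgebraicClosure K) :=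
    ⟨_, rfl⟩
  rw [← hφ] at h1
  refine ⟨α + φ g, β + φ g, i, j, hij, ?_⟩
  rw [← hφ]
  have hinf : Infinite (AlgebraicClosure K) := inferInstance
  have hne : (1 + Polynomial.C (φ g) * Polynomial.X : Polynomial (AlgebraicClosure K)) ≠ 0 := by
    intro h0
    have := congrArg (Polynomial.eval 0) h0
    simp at this
  refine mul_left_cancel₀ hne (Polynomial.funext fun t => ?_)
  rw [Polynomial.eval_mul, Polynomial.eval_mul]
  by_cases ht : 1 + φ g * t = 0
  · have h2 : (1 + Polynomial.C (φ g) * Polynomial.X : Polynomial (AlgebraicClosure K)).eval t = 0 := by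
      simp [ht]
    rw [h2, zero_mul, zero_mul]
  · congr 1
    rw [eval_map_res2]
    obtain ⟨s, hs⟩ : ∃ s, s = t / (1 + φ g * t) := ⟨_, rfl⟩
    have hus : (1 + φ g * t) * s = t := by
      rw [hs, mul_div_cancel₀ _ ht]
    have h3 : (fun l => φ (x l) + t * φ (b l + 2 * g * x l) +
        t ^ 2 * φ (c l + g * b l + g ^ 2 * x l)) = fun l => (1 + φ g * t) ^ 2 *
          (φ (x l) + s * φ (b l) + s ^ 2 * φ (c l)) := by
      funext l
      simp only [map_add, map_mul, map_pow, map_ofNat]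
      linear_combination (-((1 + φ g * t) * φ (b l) + φ (c l) * ((1 + φ g * t) * s + t))) * hus
    rw [h3, TT.eval_smul_hom (hF.map φ), ← eval_map_res2, h1]
    simp only [Polynomial.eval_mul, Polynomial.eval_pow, Polynomial.eval_add, Polynomial.eval_C,
      Polynomial.eval_one, Polynomial.eval_X]
    have h4 : ((1 + φ g * t) ^ 2) ^ d = (1 + φ g * t) ^ i * (1 + φ g * t) ^ j := by
      rw [← pow_mul, ← pow_add, hij]
    have h5 : 1 + (α + φ g) * t = (1 + φ g * t) * (1 + α * s) := by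
      linear_combination (-α) * hus
    have h6 : 1 + (β + φ g) * t = (1 + φ g * t) * (1 + β * s) := by
      linear_combination (-β) * hus
    rw [h4, h5, h6, mul_pow, mul_pow]
    ring

/-- scaling of the parameter -/
lemma twoRoots2_scale {d : ℕ} {F : MvPolynomial (Fin (n + 1)) K}
    {x b c : Fin (n + 1) → K} (μ : K) (h : TwoRoots2 d F x b c) :
    TwoRoots2 d F x (fun i => μ * b i) (fun i => μ ^ 2 * c i) := by
  obtain ⟨α, β, i, j, hij, h1⟩ := h
  obtain ⟨φ, hφ⟩ : ∃ φ : K →+* AlgebraicClosure K, φ = algebraMap K (AlgebraicClosure K) :=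
    ⟨_, rfl⟩
  rw [← hφ] at h1
  refine ⟨α * φ μ, β * φ μ, i, j, hij, ?_⟩
  rw [← hφ]
  have hinf : Infinite (AlgebraicClosure K) := inferInstance
  refine Polynomial.funext fun t => ?_
  rw [eval_map_res2]
  have h3 : (fun l => φ (x l) + t * φ (μ * b l) + t ^ 2 * φ (μ ^ 2 * c l)) = fun l =>
      φ (x l) + (φ μ * t) * φ (b l) + (φ μ * t) ^ 2 * φ (c l) := by
    funext l
    simp only [map_mul, map_pow]
    ring
  rw [h3, ← eval_map_res2, h1]
  simp only [Polynomial.eval_mul, Polynomial.eval_pow, Polynomial.eval_add, Polynomial.eval_C,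
    Polynomial.eval_one, Polynomial.eval_X]
  ring

lemma ind_shift {x b c : Fin (n + 1) → K} (g : K) (h : LinearIndependent K ![x, b, c]) :
    LinearIndependent K ![x, fun i => b i + 2 * g * x i,
      fun i => c i + g * b i + g ^ 2 * x i] := by
  rw [Fintype.linearIndependent_iff] at h ⊢
  intro w hw
  have h1 := h ![w 0 + 2 * g * w 1 + g ^ 2 * w 2, w 1 + g * w 2, w 2] (by
    rw [← hw]
    funext l
    simp only [Fin.sum_univ_three, Matrix.cons_val_zero, Matrix.cons_val_one, Matrix.cons_val,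
      Pi.add_apply, Pi.smul_apply, smul_eq_mul]
    ring)
  have e0 := h1 0
  have e1 := h1 1
  have e2 := h1 2
  simp only [Matrix.cons_val_zero, Matrix.cons_val_one, Matrix.cons_val] at e0 e1 e2
  rw [e2] at e1
  have e1' : w 1 = 0 := by simpa using e1
  rw [e2, e1'] at e0
  have e0' : w 0 = 0 := by simpa using e0
  intro i
  fin_cases i
  · exact e0'
  · exact e1'
  · exact e2

lemma ind_scale {x b c : Fin (n + 1) → K} {μ : K} (hμ : μ ≠ 0)
    (h : LinearIndependent K ![x, b, c]) :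
    LinearIndependent K ![x, fun i => μ * b i, fun i => μ ^ 2 * c i] := by
  rw [Fintype.linearIndependent_iff] at h ⊢
  intro w hw
  have h1 := h ![w 0, w 1 * μ, w 2 * μ ^ 2] (by
    rw [← hw]
    funext l
    simp only [Fin.sum_univ_three, Matrix.cons_val_zero, Matrix.cons_val_one, Matrix.cons_val,
      Pi.add_apply, Pi.smul_apply, smul_eq_mul]
    ring)
  have e0 := h1 0
  have e1 := h1 1
  have e2 := h1 2
  simp only [Matrix.cons_val_zero, Matrix.cons_val_one, Matrix.cons_val] at e0 e1 e2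
  intro i
  fin_cases i
  · exact e0
  · exact (mul_eq_zero.1 e1).resolve_right hμ
  · exact (mul_eq_zero.1 e2).resolve_right (pow_ne_zero 2 hμ)

theorem pf_NFC : T_NFC := by
  intro K _ _ n d F x b c p hF hx hI hT
  obtain ⟨g, hg⟩ : ∃ g : K, g = -b p / 2 := ⟨_, rfl⟩
  have hI1 := ind_shift g hI
  have hT1 := twoRoots2_shift hF g hT
  obtain ⟨b1, hb1⟩ : ∃ b1 : Fin (n + 1) → K, b1 = fun i => b i + 2 * g * x i := ⟨_, rfl⟩
  obtain ⟨c1, hc1⟩ : ∃ c1 : Fin (n + 1) → K, c1 = fun i => c i + g * b i + g ^ 2 * x i :=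
    ⟨_, rfl⟩
  rw [← hb1, ← hc1] at hI1 hT1
  have h0 : b1 p = 0 := by
    rw [hb1]
    simp only
    rw [hx, hg]
    field_simp
    ring
  have hb0 : b1 ≠ 0 := hI1.ne_zero 1
  obtain ⟨q, hq⟩ := Function.ne_iff.1 hb0
  have hq' : b1 q ≠ 0 := hq
  refine ⟨fun i => (b1 q)⁻¹ * b1 i, fun i => (b1 q)⁻¹ ^ 2 * c1 i, q, ?_, ?_, ?_,
    ind_scale (inv_ne_zero hq') hI1, twoRoots2_scale _ hT1⟩
  · rintro rfl
    exact hq' h0
  · simp only
    rw [h0, mul_zero]
  · exact inv_mul_cancel₀ hq'

end Pool.Agent.H15.BO
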