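import Pool.Agent.H17.BO.TargetsD

/-!
# MP_70ba79_ag, board `bo_modules`, row PAR: parametrisation of a conic with a rational point
-/

set_option autoImplicit false

namespace Pool.Agent.H15.BO

open MvPolynomial SC Pool.Agent.H27.LV Pool.Agent.H17.VG Pool.Agent.H17.BO

variable {K : Type} [Field K]

lemma bil_add_left (q : Matrix (Fin 3) (Fin 3) K) (u u' v : Fin 3 → K) :
    bil q (u + u') v = bil q u v + bil q u' v := by
  unfold bil
  simp only [Fin.sum_univ_three, Pi.add_apply]
  ring

lemma bil_add_right (q : Matrix (Fin 3) (Fin 3) K) (u v v' : Fin 3 → K) :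
    bil q u (v + v') = bil q u v + bil q u v' := by
  unfold bil
  simp only [Fin.sum_univ_three, Pi.add_apply]
  ring

lemma bil_smul_left (q : Matrix (Fin 3) (Fin 3) K) (c : K) (u v : Fin 3 → K) :
    bil q (c • u) v = c * bil q u v := by
  unfold bil
  simp only [Fin.sum_univ_three, Pi.smul_apply, smul_eq_mul]
  ring

lemma bil_smul_right (q : Matrix (Fin 3) (Fin 3) K) (c : K) (u v : Fin 3 → K) :
    bil q u (c • v) = c * bil q u v := by
  unfold bil
  simp only [Fin.sum_univ_three, Pi.smul_apply, smul_eq_mul]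
  ring

lemma bil_comm {q : Matrix (Fin 3) (Fin 3) K} (hq : q.IsSymm) (u v : Fin 3 → K) :
    bil q u v = bil q v u := by
  unfold bil
  have h1 := hq.apply 0 1
  have h2 := hq.apply 0 2
  have h3 := hq.apply 1 2
  simp only [Fin.sum_univ_three, h1, h2, h3]
  ring

/-- the functional of `u` -/
def qv (q : Matrix (Fin 3) (Fin 3) K) (u : Fin 3 → K) (b : Fin 3) : K := ∑ a, q a b * u a

/-- a vector orthogonal to `u` and `v` -/
def orth (q : Matrix (Fin 3) (Fin 3) K) (u v : Fin 3 → K) : Fin 3 → K :=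
  ![qv q u 1 * qv q v 2 - qv q u 2 * qv q v 1, qv q u 2 * qv q v 0 - qv q u 0 * qv q v 2,
    qv q u 0 * qv q v 1 - qv q u 1 * qv q v 0]

lemma bil_orth_left (q : Matrix (Fin 3) (Fin 3) K) (u v : Fin 3 → K) :
    bil q u (orth q u v) = 0 := by
  unfold bil orth qv
  simp only [Fin.sum_univ_three, Matrix.cons_val_zero, Matrix.cons_val_one, Matrix.cons_val]
  ring

lemma bil_orth_right (q : Matrix (Fin 3) (Fin 3) K) (u v : Fin 3 → K) :
    bil q v (orth q u v) = 0 := by
  unfold bil orth qv
  simp only [Fin.sum_univ_three, Matrix.cons_val_zero, Matrix.cons_val_one, Matrix.cons_val]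
  ring

lemma bil_orth_self {q : Matrix (Fin 3) (Fin 3) K} (hq : q.IsSymm) (u v : Fin 3 → K) :
    bil q (orth q u v) (orth q u v) = q.det * (bil q u u * bil q v v - bil q u v ^ 2) := by
  have h1 := hq.apply 0 1
  have h2 := hq.apply 0 2
  have h3 := hq.apply 1 2
  unfold bil orth qv
  rw [Matrix.det_fin_three]
  simp only [Fin.sum_univ_three, Matrix.cons_val_zero, Matrix.cons_val_one, Matrix.cons_val,
    h1, h2, h3]
  ring

lemma exists_bil_ne {q : Matrix (Fin 3) (Fin 3) K} (hd : q.det ≠ 0) {u : Fin 3 → K}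
    (hu : u ≠ 0) : ∃ v, bil q u v ≠ 0 := by
  by_contra h
  push Not at h
  apply hu
  have h1 : Matrix.vecMul u q = 0 := by
    funext b
    have h2 := h (Pi.single b 1)
    unfold bil at h2
    rw [Matrix.vecMul, dotProduct]
    simp only [Pi.zero_apply]
    rw [← h2]
    refine Finset.sum_congr rfl fun a _ => ?_
    rw [Finset.sum_eq_single b (fun c _ hc => by rw [Pi.single_eq_of_ne hc, mul_zero])
      (fun h => absurd (Finset.mem_univ _) h), Pi.single_eq_same, mul_one, mul_comm]
  by_contra hu0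
  exact hd (Matrix.exists_vecMul_eq_zero_iff.1 ⟨u, hu0, h1⟩)

lemma ind_of_bil {q : Matrix (Fin 3) (Fin 3) K} (hq : q.IsSymm) {A B C : Fin 3 → K}
    (hA : A ≠ 0) (haa : bil q A A = 0) (hab : bil q A B = 0) (hbc : bil q B C = 0)
    (hac : bil q A C ≠ 0) (hbb : bil q B B ≠ 0) : LinearIndependent K ![A, B, C] := by
  rw [Fintype.linearIndependent_iff]
  intro g hg
  simp only [Fin.sum_univ_three, Matrix.cons_val_zero, Matrix.cons_val_one, Matrix.cons_val] at hg
  have hba : bil q B A = 0 := by rw [bil_comm hq, hab]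
  have hz : ∀ u, bil q u 0 = 0 := by
    intro u
    unfold bil
    simp
  have h2 : g 2 = 0 := by
    have := congrArg (bil q A) hg
    rw [bil_add_right, bil_add_right, bil_smul_right, bil_smul_right, bil_smul_right, haa, hab,
      hz] at this
    simpa [hac] using this
  have h1 : g 1 = 0 := by
    have := congrArg (bil q B) hg
    rw [bil_add_right, bil_add_right, bil_smul_right, bil_smul_right, bil_smul_right, hba, hbc,
      hz] at this
    simpa [hbb] using this
  have h0 : g 0 = 0 := by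
    rw [h1, h2, zero_smul, zero_smul, add_zero, add_zero] at hg
    exact (smul_eq_zero.1 hg).resolve_right hA
  intro i
  fin_cases i
  · exact h0
  · exact h1
  · exact h2

theorem pf_PAR : T_PAR := by
  intro K _ _ q hq hd A hA haa
  obtain ⟨A', hA'⟩ := exists_bil_ne hd hA
  have h2 : (2 : K) ≠ 0 := two_ne_zero
  obtain ⟨C1, hC1⟩ : ∃ C1 : Fin 3 → K, C1 = A' + (-(bil q A' A' / (2 * bil q A A'))) • A :=
    ⟨_, rfl⟩
  have hcc1 : bil q C1 C1 = 0 := by
    rw [hC1]
    simp only [bil_add_left, bil_add_right, bil_smul_left, bil_smul_right, haa, bil_comm hq A' A]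
    field_simp
    ring
  have hac1 : bil q A C1 = bil q A A' := by
    rw [hC1]
    simp only [bil_add_right, bil_smul_right, haa]
    ring
  have hac1' : bil q A C1 ≠ 0 := by rw [hac1]; exact hA'
  obtain ⟨B, hB⟩ : ∃ B : Fin 3 → K, B = orth q A C1 := ⟨_, rfl⟩
  have hab : bil q A B = 0 := by rw [hB]; exact bil_orth_left q A C1
  have hcb : bil q C1 B = 0 := by rw [hB]; exact bil_orth_right q A C1
  have hbb : bil q B B ≠ 0 := by
    rw [hB, bil_orth_self hq, haa, zero_mul, zero_sub, mul_neg, neg_ne_zero]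
    exact mul_ne_zero hd (pow_ne_zero 2 hac1')
  obtain ⟨C, hC⟩ : ∃ C : Fin 3 → K, C = (-(bil q B B / (2 * bil q A C1))) • C1 := ⟨_, rfl⟩
  have hc0 : (-(bil q B B / (2 * bil q A C1))) ≠ 0 :=
    neg_ne_zero.2 (div_ne_zero hbb (mul_ne_zero h2 hac1'))
  have hbc : bil q B C = 0 := by
    rw [hC, bil_smul_right, bil_comm hq B C1, hcb, mul_zero]
  have hac : bil q A C ≠ 0 := by
    rw [hC, bil_smul_right]
    exact mul_ne_zero hc0 hac1'
  refine ⟨B, C, ind_of_bil hq hA haa hab hbc hac hbb, haa, hab, ?_, hbc, ?_⟩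
  · rw [hC, bil_smul_right]
    field_simp
    ring
  · rw [hC, bil_smul_right, bil_smul_left, hcc1]
    ring

end Pool.Agent.H15.BO
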