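import Pool.Agent.H15.BO.FNX

/-!
# MP_70ba79_ag, board `bo_modules`, row QD: the determinants of all forms from those of the sums of
two monomials
-/

set_option autoImplicit false

namespace Pool.Agent.H15.BO

open MvPolynomial SC Pool.Agent.H27.LV Pool.Agent.H17.VG Pool.Agent.H17.BO

variable {L : Type} [Field L] {ι : Type} [Fintype ι]

/-- the determinant with the columns `x`, `u`, `v` -/
def dd (x u v : Fin 3 → L) : L :=
  x 0 * u 1 * v 2 - x 0 * u 2 * v 1 - x 1 * u 0 * v 2 + x 1 * u 2 * v 0 + x 2 * u 0 * v 1 -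
    x 2 * u 1 * v 0

lemma dd_sum (x : Fin 3 → L) (Q : ι → L) (u v : Fin 3 → ι → L) :
    dd x (fun t => ∑ M, Q M * u t M) (fun t => ∑ M, Q M * v t M) =
      ∑ M, ∑ M', Q M * Q M' * dd x (fun t => u t M) (fun t => v t M') := by
  have h : ∀ t s : Fin 3, ∀ c : L, c * (∑ M, Q M * u t M) * (∑ M, Q M * v s M) =
      ∑ M, ∑ M', Q M * Q M' * (c * u t M * v s M') := by
    intro t s c
    rw [mul_assoc, Finset.sum_mul_sum, Finset.mul_sum]
    refine Finset.sum_congr rfl fun M _ => ?_
    rw [Finset.mul_sum]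
    refine Finset.sum_congr rfl fun M' _ => ?_
    ring
  unfold dd
  simp only [h]
  simp only [← Finset.sum_add_distrib, ← Finset.sum_sub_distrib]
  refine Finset.sum_congr rfl fun M _ => Finset.sum_congr rfl fun M' _ => ?_
  ring

lemma det3_frm {n e : ℕ} (x : Fin (n + 1) → L) (y : Fin 2 → Mon (n + 1) (e + 1) → L)
    (Q : Mon (n + 1) e → L) (a : Fin 3 → Fin (n + 1)) :
    det3 x y (frm Q) a = dd (fun t => x (a t)) (fun t => ∑ M, Q M * y 0 (sh (a t) M))
      (fun t => ∑ M, Q M * y 1 (sh (a t) M)) := by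
  unfold det3 dd
  rw [Matrix.det_fin_three]
  simp only [Matrix.of_apply, Matrix.cons_val_zero, Matrix.cons_val_one, Matrix.cons_val,
    fnl_X_mul]
  ring

theorem pf_QD : T_QD := by
  classical
  intro k L _ _ _ _ n e x y κ H Q a
  have hup : up L (frm Q) = frm (fun M => algebraMap k L (Q M)) := by
    unfold up frm
    rw [map_sum]
    refine Finset.sum_congr rfl fun M _ => ?_
    rw [map_mul, map_C]
    congr 1
    unfold mono
    rw [map_monomial, map_one]
  rw [hup, det3_frm, dd_sum]
  have hs : ∀ (M M' : Mon (n + 1) e) (z : Mon (n + 1) e → L),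
      ∑ N, (Pi.single M (1 : L) + Pi.single M' (1 : L) : Mon (n + 1) e → L) N * z N =
        z M + z M' := by
    intro M M' z
    simp only [Pi.add_apply, add_mul, Finset.sum_add_distrib]
    congr 1
    · rw [Finset.sum_eq_single M (fun N _ hN => by rw [Pi.single_eq_of_ne hN, zero_mul])
        (fun h => absurd (Finset.mem_univ _) h), Pi.single_eq_same, one_mul]
    · rw [Finset.sum_eq_single M' (fun N _ hN => by rw [Pi.single_eq_of_ne hN, zero_mul])
        (fun h => absurd (Finset.mem_univ _) h), Pi.single_eq_same, one_mul]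
  choose r hr using fun M M' => H M M' a
  have hd : ∀ M M' : Mon (n + 1) e,
      dd (fun t => x (a t)) (fun t => y 0 (sh (a t) M)) (fun t => y 1 (sh (a t) M)) +
      dd (fun t => x (a t)) (fun t => y 0 (sh (a t) M)) (fun t => y 1 (sh (a t) M')) +
      (dd (fun t => x (a t)) (fun t => y 0 (sh (a t) M')) (fun t => y 1 (sh (a t) M)) +
      dd (fun t => x (a t)) (fun t => y 0 (sh (a t) M')) (fun t => y 1 (sh (a t) M'))) =
        κ * algebraMap k L (r M M') := by
    intro M M'
    rw [← hr M M', det3_frm]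
    simp only [hs]
    unfold dd
    ring
  obtain ⟨D, hD⟩ : ∃ D : Mon (n + 1) e → Mon (n + 1) e → L, ∀ M M', D M M' =
      dd (fun t => x (a t)) (fun t => y 0 (sh (a t) M)) (fun t => y 1 (sh (a t) M')) :=
    ⟨_, fun _ _ => rfl⟩
  simp only [← hD] at hd ⊢
  have h2 : (2 : L) ≠ 0 := by
    have : (2 : k) ≠ 0 := two_ne_zero
    intro h
    apply this
    apply (algebraMap k L).injective
    rw [map_ofNat, map_zero]
    exact h
  refine ⟨∑ M, ∑ M', Q M * Q M' * ((r M M' - r M M / 4 - r M' M' / 4) / 2), ?_⟩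
  have h4 : (4 : L) ≠ 0 := by
    have : (4 : L) = 2 * 2 := by norm_num
    rw [this]
    exact mul_ne_zero h2 h2
  have hsym : ∑ M, ∑ M', algebraMap k L (Q M) * algebraMap k L (Q M') * D M M' =
      ∑ M, ∑ M', algebraMap k L (Q M) * algebraMap k L (Q M') * ((D M M' + D M' M) / 2) := by
    have hc : ∑ M, ∑ M', algebraMap k L (Q M) * algebraMap k L (Q M') * D M M' =
        ∑ M, ∑ M', algebraMap k L (Q M) * algebraMap k L (Q M') * D M' M := by
      rw [Finset.sum_comm]
      refine Finset.sum_congr rfl fun M _ => Finset.sum_congr rfl fun M' _ => ?_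
      ring
    have he : ∑ M, ∑ M', algebraMap k L (Q M) * algebraMap k L (Q M') * ((D M M' + D M' M) / 2) =
        (∑ M, ∑ M', algebraMap k L (Q M) * algebraMap k L (Q M') * D M M' +
          ∑ M, ∑ M', algebraMap k L (Q M) * algebraMap k L (Q M') * D M' M) / 2 := by
      rw [← Finset.sum_add_distrib, Finset.sum_div]
      refine Finset.sum_congr rfl fun M _ => ?_
      rw [← Finset.sum_add_distrib, Finset.sum_div]
      refine Finset.sum_congr rfl fun M' _ => ?_
      ring
    rw [he, ← hc]
    field_simp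
    ring
  rw [hsym, map_sum, Finset.mul_sum]
  refine Finset.sum_congr rfl fun M _ => ?_
  rw [map_sum, Finset.mul_sum]
  refine Finset.sum_congr rfl fun M' _ => ?_
  have e1 := hd M M'
  have e2 := hd M M
  have e3 := hd M' M'
  simp only [map_mul, map_div₀, map_sub, map_ofNat]
  have e4 : κ * algebraMap k L (r M M) / 4 = D M M := by
    rw [← e2]
    field_simp
    ring
  have e5 : κ * algebraMap k L (r M' M') / 4 = D M' M' := by
    rw [← e3]
    field_simp
    ring
  have e6 : D M M' + D M' M = κ * algebraMap k L (r M M') - κ * algebraMap k L (r M M) / 4 -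
      κ * algebraMap k L (r M' M') / 4 := by
    rw [e4, e5, ← e1]
    ring
  rw [e6]
  ring

end Pool.Agent.H15.BO
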