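import Pool.Agent.H17.BO.TargetsD
import Pool.Agent.H72.BO.ULF

/-!
# MP_70ba79_ag, board `bo_modules`, row TFE: transfer of exceptional conics
-/

set_option autoImplicit false

namespace Pool.Agent.H15.BO

open MvPolynomial SC Pool.Agent.H27.LV Pool.Agent.H17.VG Pool.Agent.H17.BO Filter

/-- restriction to a conic over a ring -/
noncomputable def rs {S : Type} [CommRing S] {n : ℕ} (x b c : Fin (n + 1) → S)
    (G : MvPolynomial (Fin (n + 1)) S) : Polynomial S :=
  aeval (fun i => Polynomial.C (x i) + Polynomial.C (b i) * Polynomial.X +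
      Polynomial.C (c i) * Polynomial.X ^ 2) G

lemma rs_map {S T : Type} [CommRing S] [CommRing T] {n : ℕ} (φ : S →+* T)
    (x b c : Fin (n + 1) → S) (G : MvPolynomial (Fin (n + 1)) S) :
    (rs x b c G).map φ = rs (fun i => φ (x i)) (fun i => φ (b i)) (fun i => φ (c i))
      (MvPolynomial.map φ G) := by
  unfold rs
  induction G using MvPolynomial.induction_on with
  | C a =>
    rw [MvPolynomial.algHom_C, MvPolynomial.map_C, MvPolynomial.algHom_C,
      Polynomial.algebraMap_apply, Polynomial.algebraMap_apply, Polynomial.map_C]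
    rfl
  | add p q hp hq => rw [map_add, Polynomial.map_add, hp, hq, map_add, map_add]
  | mul_X p i hp =>
    rw [map_mul, Polynomial.map_mul, hp, map_mul, map_mul, aeval_X, MvPolynomial.map_X, aeval_X]
    simp

/-- the form with given coefficients over a ring -/
noncomputable def frR {S : Type} [CommRing S] {n d : ℕ} (c : Mon (n + 1) d → S) :
    MvPolynomial (Fin (n + 1)) S := ∑ M, C (c M) * monomial (fs M.1) 1

lemma frR_map {S T : Type} [CommRing S] [CommRing T] {n d : ℕ} (φ : S →+* T)
    (c : Mon (n + 1) d → S) : MvPolynomial.map φ (frR c) = frR fun M => φ (c M) := by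
  unfold frR
  rw [map_sum]
  refine Finset.sum_congr rfl fun M _ => ?_
  rw [map_mul, MvPolynomial.map_C, MvPolynomial.map_monomial, map_one]

/-- the polynomial of the condition of two roots -/
noncomputable def rel {S : Type} [CommRing S] {n : ℕ} (x b c : Fin (n + 1) → S)
    (G : MvPolynomial (Fin (n + 1)) S) (α β : S) (i j : ℕ) : Polynomial S :=
  rs x b c G - Polynomial.C (eval x G) * (1 + Polynomial.C α * Polynomial.X) ^ i *
    (1 + Polynomial.C β * Polynomial.X) ^ j

lemma rel_map {S T : Type} [CommRing S] [CommRing T] {n : ℕ} (φ : S →+* T)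
    (x b c : Fin (n + 1) → S) (G : MvPolynomial (Fin (n + 1)) S) (α β : S) (i j : ℕ) :
    (rel x b c G α β i j).map φ = rel (fun i => φ (x i)) (fun i => φ (b i)) (fun i => φ (c i))
      (MvPolynomial.map φ G) (φ α) (φ β) i j := by
  unfold rel
  have h : eval (fun i => φ (x i)) (MvPolynomial.map φ G) = φ (eval x G) := by
    rw [eval_map]
    exact (MvPolynomial.eval₂_comp_left φ (RingHom.id S) x G).symm
  rw [Polynomial.map_sub, rs_map, h]
  simp

lemma up_frm_eq {k K : Type} [Field k] [Field K] [Algebra k K] {n d : ℕ}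
    (c : Mon (n + 1) d → k) : up K (frm c) = frR fun M => algebraMap k K (c M) := by
  unfold up frm mono frR
  rw [map_sum]
  refine Finset.sum_congr rfl fun M _ => ?_
  rw [map_mul, MvPolynomial.map_C, MvPolynomial.map_monomial, map_one]

/-- the condition of two roots is the vanishing of `rel` -/
lemma rel_iff {K : Type} [Field K] {n : ℕ} (x b c : Fin (n + 1) → K)
    (G : MvPolynomial (Fin (n + 1)) K) (α β : AlgebraicClosure K) (i j : ℕ) :
    (res2 x b c G).map (algebraMap K (AlgebraicClosure K)) =
      Polynomial.C (algebraMap K (AlgebraicClosure K) (eval x G)) *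
        (1 + Polynomial.C α * Polynomial.X) ^ i * (1 + Polynomial.C β * Polynomial.X) ^ j ↔
    rel (fun l => algebraMap K (AlgebraicClosure K) (x l))
      (fun l => algebraMap K (AlgebraicClosure K) (b l))
      (fun l => algebraMap K (AlgebraicClosure K) (c l))
      (MvPolynomial.map (algebraMap K (AlgebraicClosure K)) G) α β i j = 0 := by
  unfold rel
  have h : eval (fun l => algebraMap K (AlgebraicClosure K) (x l))
      (MvPolynomial.map (algebraMap K (AlgebraicClosure K)) G) =
      algebraMap K (AlgebraicClosure K) (eval x G) := by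
    rw [eval_map]
    exact (MvPolynomial.eval₂_comp_left (algebraMap K (AlgebraicClosure K))
      (RingHom.id K) x G).symm
  rw [h, ← rs_map, sub_eq_zero]
  rfl

/-- `L` contains the family -/
lemma ultra_closed (K : ℕ → Type) [∀ i, Field (K i)] [∀ i, IsAlgClosed (K i)] (L : Type) [Field L]
    (π : (∀ i, K i) →+* L) (hs : Function.Surjective π)
        : IsAlgClosed L := by
  classical
  refine IsAlgClosed.of_exists_root L fun p hp hirr => ?_
  have hdeg : 0 < p.natDegree := hirr.natDegree_pos
  choose g hg using fun k : ℕ => hs (p.coeff k)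
  have hroot : ∀ i, ∃ z : K i, (Polynomial.X ^ p.natDegree +
      ∑ k ∈ Finset.range p.natDegree, Polynomial.C (g k i) * Polynomial.X ^ k :
        Polynomial (K i)).eval z = 0 := by
    intro i
    refine IsAlgClosed.exists_root _ ?_
    have h1 : (∑ k ∈ Finset.range p.natDegree, Polynomial.C (g k i) * Polynomial.X ^ k :
        Polynomial (K i)).degree < p.natDegree := by
      refine (Polynomial.degree_sum_le _ _).trans_lt ?_
      rw [Finset.sup_lt_iff (WithBot.bot_lt_coe _)]
      intro k hk
      refine (Polynomial.degree_C_mul_X_pow_le _ _).trans_lt ?_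
      exact_mod_cast Finset.mem_range.1 hk
    rw [Polynomial.degree_add_eq_left_of_degree_lt (by rwa [Polynomial.degree_X_pow]),
      Polynomial.degree_X_pow]
    exact_mod_cast hdeg.ne'
  choose z hz using hroot
  refine ⟨π z, ?_⟩
  have h2 : z ^ p.natDegree + ∑ k ∈ Finset.range p.natDegree, g k * z ^ k = 0 := by
    funext i
    have := hz i
    rw [Polynomial.eval_add, Polynomial.eval_pow, Polynomial.eval_X, Polynomial.eval_finsetSum]
      at this
    simp only [Polynomial.eval_mul, Polynomial.eval_C, Polynomial.eval_pow,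
      Polynomial.eval_X] at this
    simpa using this
  have h3 := congrArg π h2
  rw [map_add, map_pow, map_sum, map_zero] at h3
  simp only [map_mul, map_pow, hg] at h3
  rw [Polynomial.eval_eq_sum_range, Finset.sum_range_succ, hp.coeff_natDegree, one_mul, add_comm]
  exact h3

/-- transfer of independence -/
lemma ind_transfer (K : ℕ → Type) [∀ i, Field (K i)] (L : Type) [Field L]
    (π : (∀ i, K i) →+* L)
    (h0 : ∀ f, π f = 0 ↔ ∀ᶠ i in (hyperfilter ℕ : Filter ℕ), f i = 0) (m : ℕ)
    (w : ∀ i, Fin 3 → Fin m → K i)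
    (h : LinearIndependent L fun a j => π fun i => w i a j) :
    ∀ᶠ i in (hyperfilter ℕ : Filter ℕ), LinearIndependent (K i) (w i) := by
  classical
  by_contra hcon
  rw [← Ultrafilter.eventually_not] at hcon
  have h1 : ∀ i, ∃ g : Fin 3 → K i, ¬ LinearIndependent (K i) (w i) →
      (∑ a, g a • w i a = 0 ∧ ∏ a, (g a - 1) = 0) := by
    intro i
    by_cases hi : LinearIndependent (K i) (w i)
    · exact ⟨0, fun h => absurd hi h⟩
    · rw [Fintype.linearIndependent_iff] at hi
      push Not at hi
      obtain ⟨g, hg, a, ha⟩ := hi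
      refine ⟨fun b => (g a)⁻¹ * g b, fun _ => ⟨?_, ?_⟩⟩
      · have h2 := congrArg (fun v => (g a)⁻¹ • v) hg
        simp only [Finset.smul_sum, smul_zero, smul_smul] at h2
        exact h2
      · refine Finset.prod_eq_zero (Finset.mem_univ a) ?_
        show (g a)⁻¹ * g a - 1 = 0
        rw [inv_mul_cancel₀ ha, sub_self]
  choose g hg using h1
  have h2 : ∀ a, (π fun i => g i a) = 0 := by
    refine Fintype.linearIndependent_iff.1 h (fun a => π fun i => g i a) ?_
    funext j
    simp only [Finset.sum_apply, Pi.smul_apply, smul_eq_mul, Pi.zero_apply]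
    have h3 : π (∑ a, (fun i => g i a) * (fun i => w i a j)) = 0 := by
      rw [h0]
      filter_upwards [hcon] with i hi
      have h4 := congrFun (hg i hi).1 j
      simp only [Finset.sum_apply, Pi.smul_apply, smul_eq_mul, Pi.zero_apply] at h4
      simpa using h4
    rw [map_sum] at h3
    simpa only [map_mul] using h3
  have h5 : π (∏ a, ((fun i => g i a) - 1)) = 0 := by
    rw [h0]
    filter_upwards [hcon] with i hi
    simpa using (hg i hi).2
  rw [map_prod] at h5
  simp only [map_sub, h2, map_one] at h5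
  simp at h5

theorem pf_TFE : T_TFE := by
  classical
  intro k K _ _ _ _ L _ _ k' _ _ π hπs hπ n d x c c' hc hex
  obtain ⟨B, C', hI, α, β, i, j, hij, hres⟩ := hex
  -- the ultraproduct of the algebraic closures
  obtain ⟨M, _, _, ρ, hρs, hρ⟩ := Pool.Agent.H72.BO.pf_ULF fun i => AlgebraicClosure (K i)
  have hM : IsAlgClosed M := ultra_closed _ M ρ hρs
  obtain ⟨emb, hemb⟩ : ∃ emb : (∀ i, K i) →+* ∀ i, AlgebraicClosure (K i),
      ∀ f i, emb f i = algebraMap (K i) (AlgebraicClosure (K i)) (f i) :=
    ⟨RingHom.pi fun i => (algebraMap (K i) (AlgebraicClosure (K i))).comp (Pi.evalRingHom _ i),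
      fun f i => rfl⟩
  obtain ⟨ι, hι⟩ : ∃ ι : L →+* M, ∀ f, ι (π f) = ρ (emb f) := by
    refine ⟨π.liftOfRightInverse _ (Function.rightInverse_surjInv hπs)
      ⟨ρ.comp emb, fun f hf => ?_⟩, fun f => ?_⟩
    · rw [RingHom.mem_ker] at hf ⊢
      rw [hπ] at hf
      rw [RingHom.comp_apply, hρ]
      filter_upwards [hf] with i hi
      rw [hemb, hi, map_zero]
    · rw [RingHom.liftOfRightInverse_comp_apply]
      rfl
  let _ : Algebra L M := ι.toAlgebra
  obtain ⟨ψ⟩ : Nonempty (AlgebraicClosure L →ₐ[L] M) := ⟨IsAlgClosed.lift⟩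
  choose Bf hBf using fun l => hπs (B l)
  choose Cf hCf using fun l => hπs (C' l)
  obtain ⟨αf, hαf⟩ := hρs (ψ α)
  obtain ⟨βf, hβf⟩ := hρs (ψ β)
  -- independence
  have hind := ind_transfer K L π hπ (n + 1)
    (fun i => ![x i, fun l => Bf l i, fun l => Cf l i]) (by
      convert! hI using 1
      funext a l
      fin_cases a
      · rfl
      · exact hBf l
      · exact hCf l)
  -- the relation
  obtain ⟨P, hP⟩ : ∃ P : Polynomial (∀ i, AlgebraicClosure (K i)), P = rel
      (fun l => emb fun i => x i l) (fun l => emb (Bf l)) (fun l => emb (Cf l))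
      (frR fun M => emb fun i => algebraMap (k i) (K i) (c i M)) αf βf i j := ⟨_, rfl⟩
  have hP0 : P.map ρ = 0 := by
    rw [hP, rel_map, frR_map]
    rw [rel_iff] at hres
    have h1 := congrArg (Polynomial.map (ψ : AlgebraicClosure L →+* M)) hres
    rw [rel_map, Polynomial.map_zero, up_frm_eq, frR_map, frR_map] at h1
    have h2 : ∀ z : L, (ψ : AlgebraicClosure L →+* M) (algebraMap L (AlgebraicClosure L) z) =
        ι z := fun z => ψ.commutes z
    simp only [h2, hc, hι, ← hBf, ← hCf] at h1
    rw [hαf, hβf]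
    exact h1
  have hPe : ∀ᶠ s in (hyperfilter ℕ : Filter ℕ), P.map (Pi.evalRingHom _ s) = 0 := by
    have h1 : ∀ a ∈ P.support, ∀ᶠ s in (hyperfilter ℕ : Filter ℕ), P.coeff a s = 0 := by
      intro a _
      rw [← hρ, ← Polynomial.coeff_map, hP0, Polynomial.coeff_zero]
    rw [← Finset.eventually_all] at h1
    filter_upwards [h1] with s hs
    ext a
    rw [Polynomial.coeff_map, Polynomial.coeff_zero]
    by_cases ha : a ∈ P.support
    · exact hs a ha
    · rw [Polynomial.notMem_support_iff.1 ha, map_zero]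
  filter_upwards [hind, hPe] with s h1 h2
  refine ⟨fun l => Bf l s, fun l => Cf l s, h1, αf s, βf s, i, j, hij, ?_⟩
  rw [hP, rel_map, frR_map] at h2
  have h3 : ∀ f, (Pi.evalRingHom (fun i => AlgebraicClosure (K i)) s) (emb f) =
      algebraMap (K s) (AlgebraicClosure (K s)) (f s) := fun f => hemb f s
  simp only [h3, Pi.evalRingHom_apply] at h2
  have h4 := (rel_iff (x s) (fun l => Bf l s) (fun l => Cf l s)
    (up (K s) (frm (c s))) (αf s) (βf s) i j).2
  rw [up_frm_eq, frR_map] at h4
  rw [up_frm_eq]
  exact h4 h2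

end Pool.Agent.H15.BO
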