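import Pool.Agent.H17.BO.TargetsX
import Pool.Agent.H17.CI.TargetsX

/-!
# MP_70ba79_ag, board `bo_modules`, row UEC: universal equation of the exceptional conics
-/

set_option autoImplicit false

namespace Pool.Agent.H15.BO

open MvPolynomial SC Pool.Agent.H27.LV Pool.Agent.H17.VG Pool.Agent.H17.BO

/-- a nonzero minor -/
lemma exists_minor {L : Type} [Field L] {n : ℕ} {x b c : Fin (n + 1) → L} {p q : Fin (n + 1)}
    (hx : x p = 1) (hb : b p = 0) (hbq : b q = 1) (hI : LinearIndependent L ![x, b, c]) :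
    ∃ r, (Matrix.of fun u v : Fin 3 => (![x, b, c] : Fin 3 → Fin (n + 1) → L) u
        ((![p, q, r] : Fin 3 → Fin (n + 1)) v)).det ≠ 0 := by
  by_contra hcon
  push Not at hcon
  rw [Fintype.linearIndependent_iff] at hI
  have h := hI ![b p * c q - b q * c p, -(x p * c q - x q * c p), 1] (by
    funext r
    have h1 := hcon r
    rw [Matrix.det_fin_three] at h1
    simp only [Matrix.of_apply, Matrix.cons_val_zero, Matrix.cons_val_one, Matrix.cons_val] at h1
    simp only [Fin.sum_univ_three, Matrix.cons_val_zero, Matrix.cons_val_one, Matrix.cons_val,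
      Pi.add_apply, Pi.smul_apply, smul_eq_mul, Pi.zero_apply]
    rw [hx, hb, hbq] at h1 ⊢
    linear_combination h1) 2
  simp at h

/-- independence from a nonzero minor -/
lemma ind_of_minor {L : Type} [Field L] {n : ℕ} {w : Fin 3 → Fin (n + 1) → L}
    {s : Fin 3 → Fin (n + 1)} (h : (Matrix.of fun u v : Fin 3 => w u (s v)).det ≠ 0) :
    LinearIndependent L w := by
  have h1 : LinearIndependent L (Matrix.of fun u v : Fin 3 => w u (s v)).row :=
    Matrix.linearIndependent_rows_iff_isUnit.2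
      ((Matrix.isUnit_iff_isUnit_det _).2 (isUnit_iff_ne_zero.2 h))
  rw [Fintype.linearIndependent_iff] at h1 ⊢
  intro g hg
  refine h1 g ?_
  funext v
  have h2 := congrFun hg (s v)
  simp only [Finset.sum_apply, Pi.smul_apply, smul_eq_mul, Pi.zero_apply] at h2 ⊢
  exact h2

theorem pf_UEC (hXPC : T_XPC) (hXMC : T_XMC) (hXEL : Pool.Agent.H17.CI.T_XEL) : T_UEC := by
  classical
  intro n d i j p q hqp hij hnd
  obtain ⟨x0, hx0⟩ : ∃ x0 : (Mon (n + 1) d ⊕ {l : Fin (n + 1) // l ≠ p}) →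
      FractionRing (MvPolynomial (Mon (n + 1) d ⊕ {l : Fin (n + 1) // l ≠ p}) ℚ),
      AlgebraicIndependent ℚ x0 := by
    refine ⟨fun s => algebraMap (MvPolynomial (Mon (n + 1) d ⊕ {l : Fin (n + 1) // l ≠ p}) ℚ) _
      (X s), ?_⟩
    have h1 := MvPolynomial.algebraicIndependent_X (Mon (n + 1) d ⊕ {l : Fin (n + 1) // l ≠ p}) ℚ
    have h2 := h1.map' (f := IsScalarTower.toAlgHom ℚ
      (MvPolynomial (Mon (n + 1) d ⊕ {l : Fin (n + 1) // l ≠ p}) ℚ)
      (FractionRing (MvPolynomial (Mon (n + 1) d ⊕ {l : Fin (n + 1) // l ≠ p}) ℚ)))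
      (IsFractionRing.injective _ _)
    exact h2
  have main : ∀ r : Fin (n + 1), ∃ Φ : MvPolynomial (Mon (n + 1) d ⊕ {l : Fin (n + 1) // l ≠ p}) ℚ,
      Φ ≠ 0 ∧ ∀ (L : Type) [Field L] [CharZero L] (c : Mon (n + 1) d → L)
      (x' : {l : Fin (n + 1) // l ≠ p} → L) (b c' : Fin (n + 1) → L) (α β : L),
      b p = 0 → b q = 1 → (Matrix.of fun u v : Fin 3 =>
        (![pt p x', b, c'] : Fin 3 → Fin (n + 1) → L) u
          ((![p, q, r] : Fin 3 → Fin (n + 1)) v)).det ≠ 0 →
      res2 (pt p x') b c' (frm c) = Polynomial.C (eval (pt p x') (frm c)) *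
        (1 + Polynomial.C α * Polynomial.X) ^ i * (1 + Polynomial.C β * Polynomial.X) ^ j →
      aeval (Sum.elim c x') Φ = 0 := by
    intro r
    obtain ⟨I, hI⟩ := hXPC n d i j p q r
    rcases hXEL ℚ _ _ I _ x0 with ⟨Φ, hΦ, hspan⟩ | ⟨Ω, iF, iA, x, y, hf, hsp⟩
    · refine ⟨Φ, ?_, ?_⟩
      · rintro rfl
        exact hΦ (map_zero _)
      · intro L _ _ c x' b c' α β hbp hbq hdet hres
        have h2 := (hI L c x' b c' ![α, β, ((Matrix.of fun u v : Fin 3 =>
          (![pt p x', b, c'] : Fin 3 → Fin (n + 1) → L) u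
          ((![p, q, r] : Fin 3 → Fin (n + 1)) v)).det)⁻¹]).2 ⟨hbp, hbq, by
            simp only [Matrix.cons_val]
            exact mul_inv_cancel₀ hdet, by
            simp only [Matrix.cons_val_zero, Matrix.cons_val_one]
            exact hres⟩
        obtain ⟨v, hv⟩ : ∃ v : (Mon (n + 1) d ⊕ {l : Fin (n + 1) // l ≠ p}) ⊕
          (Fin (n + 1) ⊕ Fin (n + 1) ⊕ Fin 3) → L, v = (Sum.elim (Sum.elim c x')
            (Sum.elim b (Sum.elim c' ![α, β, ((Matrix.of fun u v : Fin 3 =>
          (![pt p x', b, c'] : Fin 3 → Fin (n + 1) → L) u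
          ((![p, q, r] : Fin 3 → Fin (n + 1)) v)).det)⁻¹]))) := ⟨_, rfl⟩
        rw [← hv] at h2
        have h3 : ∀ f ∈ Ideal.span I, aeval v f = 0 := by
          intro f hf
          have h4 : Ideal.span I ≤ RingHom.ker (aeval (R := ℚ) v) := by
            rw [Ideal.span_le]
            intro g hg
            exact h2 g hg
          exact h4 hf
        have h5 := h3 _ hspan
        rw [aeval_rename] at h5
        have h6 : v ∘ Sum.inl = Sum.elim c x' := by
          rw [hv]
          rfl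
        rw [h6] at h5
        exact h5
    · exfalso
      have : CharZero Ω := charZero_of_injective_algebraMap (algebraMap ℚ Ω).injective
      obtain rfl : iA = DivisionRing.toRatAlgebra := Subsingleton.elim _ _
      obtain ⟨c, hc⟩ : ∃ c : Mon (n + 1) d → Ω, c = fun M => x (Sum.inl M) := ⟨_, rfl⟩
      obtain ⟨x', hx'⟩ : ∃ x' : {l : Fin (n + 1) // l ≠ p} → Ω, x' = fun l => x (Sum.inr l) :=
        ⟨_, rfl⟩
      obtain ⟨b, hb⟩ : ∃ b : Fin (n + 1) → Ω, b = fun l => y (Sum.inl l) := ⟨_, rfl⟩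
      obtain ⟨c', hc'⟩ : ∃ c' : Fin (n + 1) → Ω, c' = fun l => y (Sum.inr (Sum.inl l)) := ⟨_, rfl⟩
      obtain ⟨z, hz⟩ : ∃ z : Fin 3 → Ω, z = fun l => y (Sum.inr (Sum.inr l)) := ⟨_, rfl⟩
      have hx : x = Sum.elim c x' := by
        funext s
        rcases s with s | s
        · rw [hc]; rfl
        · rw [hx']; rfl
      have hy : y = Sum.elim b (Sum.elim c' z) := by
        funext s
        rcases s with s | s | s
        · rw [hb]; rfl
        · rw [hc']; rfl
        · rw [hz]; rfl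
      rw [hx, hy] at hf
      obtain ⟨h1, h2, h3, h4⟩ := (hI Ω c x' b c' z).1 hf
      have hdet : (Matrix.of fun u v : Fin 3 =>
          (![pt p x', b, c'] : Fin 3 → Fin (n + 1) → Ω) u
          ((![p, q, r] : Fin 3 → Fin (n + 1)) v)).det ≠ 0 := by
        intro h0
        rw [h0, zero_mul] at h3
        exact zero_ne_one h3
      have hpt : ∀ l : {l : Fin (n + 1) // l ≠ p}, pt p x' l.1 = x' l := by
        intro l
        unfold pt
        rw [dif_neg l.2]
      refine hXMC Ω n d hnd p q hqp c (pt p x') b c' (z 0) (z 1) i j hij ?_ h1 h2 ?_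
        (ind_of_minor hdet) h4
      · unfold pt
        rw [dif_pos rfl]
      · have h5 : (Sum.elim c fun l : {l : Fin (n + 1) // l ≠ p} => pt p x' l.1) = x := by
          rw [hx]
          congr 1
          funext l
          exact hpt l
        rw [h5, algebraicIndependent_iff]
        intro P hP
        exact (algebraicIndependent_iff.1 hx0) P (hsp P hP)
  choose Φ hΦ hΦ' using main
  refine ⟨∏ r, Φ r, Finset.prod_ne_zero_iff.2 fun r _ => hΦ r, ?_⟩
  intro L _ _ c x b c' α β hx hb hbq hI hres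
  obtain ⟨r, hr⟩ := exists_minor hx hb hbq hI
  have hxx : pt p (fun l : {l : Fin (n + 1) // l ≠ p} => x l.1) = x := by
    funext l
    unfold pt
    by_cases h : l = p
    · rw [dif_pos h, h, hx]
    · rw [dif_neg h]
  rw [map_prod]
  refine Finset.prod_eq_zero (Finset.mem_univ r) ?_
  refine hΦ' r L c (fun l => x l.1) b c' α β hb hbq ?_ ?_
  · rw [hxx]
    exact hr
  · rw [hxx]
    exact hres

end Pool.Agent.H15.BO
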